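import Pool.Agent.W163.P3.Real

set_option autoImplicit false

namespace Pool.Agent.W563.P3

open Pool.Agent.W163.P3

theorem t0S (t0 t1 t2 t3 : ℝ) (hts : t0 + t1 + t2 + t3 = 0) :
    t0 ^ 2 ≤ 3 / 4 * (t0 ^ 2 + t1 ^ 2 + t2 ^ 2 + t3 ^ 2) := by
  have e3' : t0 = -t1 - t2 - t3 := by linarith
  have : t0 ^ 2 ≤ 3 * (t1 ^ 2 + t2 ^ 2 + t3 ^ 2) := by
    rw [e3']
    nlinarith [sq_nonneg (t1 - t2), sq_nonneg (t1 - t3), sq_nonneg (t2 - t3)]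
  linarith

theorem csq (t0 t1 t2 t3 z e1 e2 e3 : ℝ) :
    -(2 / 3) * z * t0 - 2 * (e1 * t1 + e2 * t2 + e3 * t3) ≤
      22 * (t0 ^ 2 + t1 ^ 2 + t2 ^ 2 + t3 ^ 2) +
      ((4 / 9) * z ^ 2 + 4 * (e1 ^ 2 + e2 ^ 2 + e3 ^ 2)) / 88 := by
  have h0 := sq_nonneg (22 * t0 + z / 3)
  have h1 := sq_nonneg (22 * t1 + e1)
  have h2 := sq_nonneg (22 * t2 + e2)
  have h3 := sq_nonneg (22 * t3 + e3)
  nlinarith

theorem fin_aux (y D e f th t0 t1 t2 t3 e1 e2 e3 : ℝ) (he' : e ≤ 1 / 10 ^ 6)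
    (hts : t0 + t1 + t2 + t3 = 0)
    (hSS : 2 * f + 2 * th + 24 * (t0 ^ 2 + t1 ^ 2 + t2 ^ 2 + t3 ^ 2) ≤ 292 / 100000)
    (key : 0 ≤ e + 2 * f + 2 * th + 5 / 12 * y ^ 2 - 2 / 5 - 2 / 3 * y * t0 + 2 / 3 * t0 ^ 2
      + (t0 ^ 2 + t1 ^ 2 + t2 ^ 2 + t3 ^ 2) / 2 - y / 3 * D + 2 / 3 * t0 * D + 2 / 3 * D ^ 2
      - 2 * (e1 * t1 + e2 * t2 + e3 * t3))
    (hyl : 0.9985 ≤ y) (hyu : y ≤ 1) (he1p : 0 ≤ e1) (he2p : 0 ≤ e2) (he3p : 0 ≤ e3)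
    (hDe : D = e1 + e2 + e3) (hDl : 13 / 100 ≤ D) (hDu : D ≤ 35 / 100) : False := by
  have hee : e1 ^ 2 + e2 ^ 2 + e3 ^ 2 ≤ D ^ 2 := by
    rw [hDe]; nlinarith [mul_nonneg he1p he2p, mul_nonneg he1p he3p, mul_nonneg he2p he3p]
  have ht0S := t0S t0 t1 t2 t3 hts
  have hcs := csq t0 t1 t2 t3 (y - D) e1 e2 e3
  have hyD : (y - D) ^ 2 ≤ (1 - D) ^ 2 := by
    apply pow_le_pow_left₀ <;> linarith
  have hy2 : 5 / 12 * y ^ 2 ≤ 5 / 12 := by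
    have : y ^ 2 ≤ 1 := by apply pow_le_one₀ <;> linarith
    linarith
  have hyD2 : - (y / 3 * D) ≤ - D / 3 + 0.0005 * D := by
    have : 0 ≤ (y - 0.9985) * D := by
      apply mul_nonneg <;> linarith
    nlinarith
  have hSSn : 0 ≤ t0 ^ 2 + t1 ^ 2 + t2 ^ 2 + t3 ^ 2 := by positivity
  have e1' : -(2 / 3) * (y - D) * t0 = - (2 / 3 * y * t0) + 2 / 3 * t0 * D := by ring
  rw [e1'] at hcs
  have hfin : 0 ≤ 1 / 10 ^ 6 + 292 / 100000 + 1 / 60 - D / 3 + 0.0005 * D + 2 / 3 * D ^ 2 +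
      ((4 / 9) * (1 - D) ^ 2 + 4 * D ^ 2) / 88 := by
    linarith
  have hprod := mul_nonneg (sub_nonneg.2 hDl) (sub_nonneg.2 hDu)
  nlinarith

theorem t_RA2 : S_RA2 := by
  intro y0 y1 y2 y3 p1 p2 p3 d12 d13 d21 d23 d31 d32 f th e h hD35
  obtain ⟨hy0, hy1, hy2, hy3, hp1, hp2, hp3, h12, h13, h21, h23, h31, h32, hf, hth, he, he', hsum,
    hp, hd1, hd2, hd3, hC, hm1, hm2, hm3, hS, hIa, hIb⟩ := h
  by_contra hcon
  push Not at hcon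
  have hts : (y0 - (1 - th) / 4) + (y1 - (1 - th) / 4) + (y2 - (1 - th) / 4) +
    (y3 - (1 - th) / 4) = 0 := by linarith
  have hSS : 2 * f + 2 * th + 24 * ((y0 - (1 - th) / 4) ^ 2 + (y1 - (1 - th) / 4) ^ 2 +
      (y2 - (1 - th) / 4) ^ 2 + (y3 - (1 - th) / 4) ^ 2) ≤ 292 / 100000 := by
    have : 6 * (4 * (y0 ^ 2 + y1 ^ 2 + y2 ^ 2 + y3 ^ 2) - (1 - th) ^ 2) =
        24 * ((y0 - (1 - th) / 4) ^ 2 + (y1 - (1 - th) / 4) ^ 2 +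
      (y2 - (1 - th) / 4) ^ 2 + (y3 - (1 - th) / 4) ^ 2) := by
      have e3' : y3 = 1 - th - y0 - y1 - y2 := by linarith
      rw [e3']
      ring
    linarith
  have hthu : th ≤ 146 / 100000 := by
    have h0 : 0 ≤ (y0 - (1 - th) / 4) ^ 2 + (y1 - (1 - th) / 4) ^ 2 +
      (y2 - (1 - th) / 4) ^ 2 + (y3 - (1 - th) / 4) ^ 2 := by positivity
    linarith
  refine fin_aux (1 - th) (d12 + d13 + d21 + d23 + d31 + d32) e f th _ _ _ _ (d21 + d31)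
    (d12 + d32) (d13 + d23) he' hts hSS ?_ (by norm_num; linarith) (by linarith) (by positivity)
    (by positivity) (by positivity) (by ring) hcon.le hD35
  have hrho : 0 ≤ d12 * d13 + d21 * d23 + d31 * d32 := by positivity
  have id1 : e + 2 * f + 2 * th + 5 / 12 * (1 - th) ^ 2 - 2 / 5
      - 2 / 3 * (1 - th) * (y0 - (1 - th) / 4) + 2 / 3 * (y0 - (1 - th) / 4) ^ 2
      + ((y0 - (1 - th) / 4) ^ 2 + (y1 - (1 - th) / 4) ^ 2 + (y2 - (1 - th) / 4) ^ 2 +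
        (y3 - (1 - th) / 4) ^ 2) / 2 - (1 - th) / 3 * (d12 + d13 + d21 + d23 + d31 + d32)
      + 2 / 3 * (y0 - (1 - th) / 4) * (d12 + d13 + d21 + d23 + d31 + d32)
      + 2 / 3 * (d12 + d13 + d21 + d23 + d31 + d32) ^ 2
      - 2 * ((d21 + d31) * (y1 - (1 - th) / 4) + (d12 + d32) * (y2 - (1 - th) / 4)
        + (d13 + d23) * (y3 - (1 - th) / 4)) =
      (e + 2 * f + 2 * th +
    (y0 ^ 2 + 2 * (y1 * y2 + y1 * y3 + y2 * y3) - 2 / 5 - (p1 ^ 2 + p2 ^ 2 + p3 ^ 2))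
    + LIN y1 y2 y3 p1 p2 p3 d12 d13 d21 d23 d31 d32 + QQ d12 d13 d21 d23 d31 d32)
    + ((p1 - (d21 + d31) - (y0 - (d12 + d13 + d21 + d23 + d31 + d32)) / 3) ^ 2
      + (p2 - (d12 + d32) - (y0 - (d12 + d13 + d21 + d23 + d31 + d32)) / 3) ^ 2
      + (p3 - (d13 + d23) - (y0 - (d12 + d13 + d21 + d23 + d31 + d32)) / 3) ^ 2
      + 2 * ((d21 - d31 + (y3 - y2) / 2) ^ 2 + (d12 - d32 + (y3 - y1) / 2) ^ 2
        + (d13 - d23 + (y2 - y1) / 2) ^ 2) + 4 * (d12 * d13 + d21 * d23 + d31 * d32)) := by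
    have e3' : y3 = 1 - th - y0 - y1 - y2 := by linarith
    have p3' : p3 = y0 - p1 - p2 := by linarith
    unfold LIN QQ
    rw [e3', p3']
    ring
  rw [id1]
  positivity

end Pool.Agent.W563.P3
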